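import Pool.Agent.T2h76R.Fam
import Pool.Agent.T2h76R.Hw1

set_option autoImplicit false

/-!
# Clusters in the Ankeny-Chowla-Hasse family: `(2 q a) ^ 2 + 1` with at most two prime factors
-/

namespace Pool.Agent.Results.MP_4b1228_nt.ACHP2Clusters

open Filter

/-- `n ≠ 0` is up to the sign a product of at most `r` primes, counted with multiplicity, all of them at
least `w`. -/
def AlmostPrime (r : ℕ) (w : ℝ) (n : ℤ) : Prop :=
  n ≠ 0 ∧ n.natAbs.primeFactorsList.length ≤ r ∧ ∀ p : ℕ, p.Prime → (p : ℤ) ∣ n → w ≤ p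

/-- **A theorem of Maynard-Tao type for the Ankeny-Chowla-Hasse family.** Let `q ≥ 1` (in particular any
prime `q`), and let `f` be a nonzero polynomial with integer coefficients such that `(x ^ 2 + 1) f(x)` has no
fixed prime divisor on the multiples `x` of `2 q`: `f(0)` is prime to `2 q`, and no prime not dividing `2 q`
divides all the values `(n ^ 2 + 1) f(n)`. For every `m ≥ 1` there is `K` such that, for every finite set `S`
of at least `K` nonnegative integers, there are `r` and `δ > 0`, and for every `l` there is an exponent `B`,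
such that for all large `N` there are a subset `H` of `S` with `m` elements and an arithmetic progression
`n, n + d, ..., n + (l - 1) d` in `(N, N + N ^ 0.999]` with difference `1 ≤ d ≤ (log N) ^ B` such that for all
its terms `x` and all `h ∈ H`, with `a = x + h`: the number `(2 q a) ^ 2 + 1` has at most two prime factors,
all of them at least `N ^ (6 / 25)`, and `f(2 q a)` has at most `r` prime factors, all at least `N ^ δ`. -/
theorem result (q : ℕ) (hq : 1 ≤ q) (f : Polynomial ℤ) (hf : f ≠ 0)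
    (h0 : ∀ p : ℕ, p.Prime → p ∣ 2 * q → ¬ (p : ℤ) ∣ f.eval 0)
    (hadm : ∀ p : ℕ, p.Prime → ¬ p ∣ 2 * q → ∃ n : ℤ, ¬ (p : ℤ) ∣ (n ^ 2 + 1) * f.eval n)
    (m : ℕ) (hm : 1 ≤ m) :
    ∃ K : ℕ, ∀ S : Finset ℕ, K ≤ S.card → ∃ (r : ℕ) (δ : ℝ), 0 < δ ∧ ∀ l : ℕ, ∃ B : ℕ,
      ∀ᶠ N : ℕ in atTop, ∃ H ⊆ S, H.card = m ∧ ∃ n d : ℕ, 1 ≤ d ∧ (d : ℝ) ≤ Real.log N ^ B ∧
      ∀ j < l, N < n + j * d ∧ ((n + j * d : ℕ) : ℝ) ≤ N + (N : ℝ) ^ (999 / 1000 : ℝ) ∧
        ∀ h ∈ H,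
          AlmostPrime 2 ((N : ℝ) ^ (6 / 25 : ℝ)) ((2 * (q : ℤ) * ((n + j * d + h : ℕ) : ℤ)) ^ 2 + 1) ∧
          AlmostPrime r ((N : ℝ) ^ δ) (f.eval (2 * (q : ℤ) * ((n + j * d + h : ℕ) : ℤ))) := by
  obtain ⟨K, hK⟩ := Pool.Agent.T2h76Q.MT.E.fam Pool.Agent.T2h76R.hasWeyl1 (by norm_num) f hf (2 * q)
    (by omega) (one_dvd _) 0 (by omega) (by
      intro p hp hpq hd
      have e : (((0 : ℕ) : ℤ) ^ 2 - -1) * f.eval (((0 : ℕ) : ℤ)) = f.eval 0 := by
        simp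
      rw [e] at hd
      exact h0 p hp hpq hd) (by
      intro p hp hpq
      obtain ⟨n, hn⟩ := hadm p hp hpq
      exact ⟨n, by rwa [sub_neg_eq_add]⟩) m hm
  refine ⟨K, fun S hS => ?_⟩
  obtain ⟨r, δ, hδ, hmain⟩ := hK S hS
  refine ⟨r, δ, hδ, fun l => ?_⟩
  obtain ⟨B, hB⟩ := hmain l
  refine ⟨B, ?_⟩
  filter_upwards [hB] with N hN
  obtain ⟨H, hH, hHc, n, d, h1, h2, h3⟩ := hN
  refine ⟨H, hH, hHc, n, d, h1, h2, fun j hj => ?_⟩
  obtain ⟨h4, h5, h6⟩ := h3 j hj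
  refine ⟨h4, h5, fun h hh => ?_⟩
  obtain ⟨g1, g2⟩ := h6 h hh
  have e : ((2 * q * (n + j * d + h) + 0 : ℕ) : ℤ) = 2 * (q : ℤ) * ((n + j * d + h : ℕ) : ℤ) := by
    push_cast
    ring
  rw [e] at g1 g2
  rw [sub_neg_eq_add] at g1
  exact ⟨g1, g2⟩

end Pool.Agent.Results.MP_4b1228_nt.ACHP2Clusters
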