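import Pool.Agent.T2h76R.Fam
import Pool.Agent.T2h76R.Hw4

set_option autoImplicit false

/-!
# Clusters in Lang's family: `((2 a + 1) q) ^ 2 + 4` with at most two prime factors
-/

namespace Pool.Agent.Results.MP_4b1228_nt.LangP2Clusters

open Filter

/-- `n ≠ 0` is up to the sign a product of at most `r` primes, counted with multiplicity, all of them at
least `w`. -/
def AlmostPrime (r : ℕ) (w : ℝ) (n : ℤ) : Prop :=
  n ≠ 0 ∧ n.natAbs.primeFactorsList.length ≤ r ∧ ∀ p : ℕ, p.Prime → (p : ℤ) ∣ n → w ≤ p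

/-- **A theorem of Maynard-Tao type for Lang's family.** Let `q` be odd (in particular any odd prime), and let
`f` be a nonzero polynomial with integer coefficients such that `(x ^ 2 + 4) f(x)` has no fixed prime divisor
on the odd multiples `x` of `q`: `f(q)` is prime to `2 q`, and no prime not dividing `2 q` divides all the
values `(n ^ 2 + 4) f(n)`. For every `m ≥ 1` there is `K` such that, for every finite set `S` of at least `K`
nonnegative integers, there are `r` and `δ > 0`, and for every `l` there is an exponent `B`, such that for all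
large `N` there are a subset `H` of `S` with `m` elements and an arithmetic progression
`n, n + d, ..., n + (l - 1) d` in `(N, N + N ^ 0.999]` with difference `1 ≤ d ≤ (log N) ^ B` such that for all
its terms `x` and all `h ∈ H`, with `a = x + h`: the number `((2 a + 1) q) ^ 2 + 4` has at most two prime
factors, all of them at least `N ^ (6 / 25)`, and `f((2 a + 1) q)` has at most `r` prime factors, all of them
at least `N ^ δ`. -/
theorem result (q : ℕ) (hq : Odd q) (f : Polynomial ℤ) (hf : f ≠ 0)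
    (h0 : ∀ p : ℕ, p.Prime → p ∣ 2 * q → ¬ (p : ℤ) ∣ f.eval (q : ℤ))
    (hadm : ∀ p : ℕ, p.Prime → ¬ p ∣ 2 * q → ∃ n : ℤ, ¬ (p : ℤ) ∣ (n ^ 2 + 4) * f.eval n)
    (m : ℕ) (hm : 1 ≤ m) :
    ∃ K : ℕ, ∀ S : Finset ℕ, K ≤ S.card → ∃ (r : ℕ) (δ : ℝ), 0 < δ ∧ ∀ l : ℕ, ∃ B : ℕ,
      ∀ᶠ N : ℕ in atTop, ∃ H ⊆ S, H.card = m ∧ ∃ n d : ℕ, 1 ≤ d ∧ (d : ℝ) ≤ Real.log N ^ B ∧
      ∀ j < l, N < n + j * d ∧ ((n + j * d : ℕ) : ℝ) ≤ N + (N : ℝ) ^ (999 / 1000 : ℝ) ∧
        ∀ h ∈ H,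
          AlmostPrime 2 ((N : ℝ) ^ (6 / 25 : ℝ)) (((2 * ((n + j * d + h : ℕ) : ℤ) + 1) * (q : ℤ)) ^ 2 + 4) ∧
          AlmostPrime r ((N : ℝ) ^ δ) (f.eval ((2 * ((n + j * d + h : ℕ) : ℤ) + 1) * (q : ℤ))) := by
  have hq1 : 1 ≤ q := hq.pos
  obtain ⟨K, hK⟩ := Pool.Agent.T2h76Q.MT.E.fam Pool.Agent.T2h76R.hasWeyl4 (by norm_num) f hf (2 * q)
    (by omega) (dvd_mul_right _ _) q (by omega) (by
      intro p hp hpq hd
      have hpz := Nat.prime_iff_prime_int.1 hp
      rcases hpz.dvd_or_dvd hd with h | h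
      · rcases (Nat.Prime.dvd_mul hp).1 hpq with h2 | h2
        · have h3 : p = 2 := (Nat.prime_dvd_prime_iff_eq hp Nat.prime_two).1 h2
          subst h3
          have h4 : (2 : ℤ) ∣ (q : ℤ) ^ 2 - -4 := by exact_mod_cast h
          have h5 : (2 : ℤ) ∣ (q : ℤ) ^ 2 := by
            obtain ⟨t, ht⟩ := h4
            exact ⟨t - 2, by linarith⟩
          have h6 := Int.prime_two.dvd_of_dvd_pow h5
          obtain ⟨k, hk⟩ := hq
          omega
        · have h3 : (p : ℤ) ∣ (q : ℤ) := by exact_mod_cast h2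
          have h4 : (p : ℤ) ∣ 4 := by
            have e : (4 : ℤ) = ((q : ℤ) ^ 2 - -4) - q * q := by ring
            rw [e]
            exact dvd_sub h (h3.mul_right _)
          have h5 : p ∣ 2 ^ 2 := by exact_mod_cast h4
          have h6 := hp.dvd_of_dvd_pow h5
          have h7 : p = 2 := (Nat.prime_dvd_prime_iff_eq hp Nat.prime_two).1 h6
          subst h7
          obtain ⟨k, hk⟩ := hq
          omega
      · exact h0 p hp hpq h) (by
      intro p hp hpq
      obtain ⟨n, hn⟩ := hadm p hp hpq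
      exact ⟨n, by rwa [sub_neg_eq_add]⟩) m hm
  refine ⟨K, fun S hS => ?_⟩
  obtain ⟨r, δ, hδ, hmain⟩ := hK S hS
  refine ⟨r, δ, hδ, fun l => ?_⟩
  obtain ⟨B, hB⟩ := hmain l
  refine ⟨B, ?_⟩
  filter_upwards [hB] with N hN
  obtain ⟨H, hH, hHc, n, d, h1, h2, h3⟩ := hN
  refine ⟨H, hH, hHc, n, d, h1, h2, fun j hj => ?_⟩
  obtain ⟨h4, h5, h6⟩ := h3 j hj
  refine ⟨h4, h5, fun h hh => ?_⟩
  obtain ⟨g1, g2⟩ := h6 h hh
  have e : ((2 * q * (n + j * d + h) + q : ℕ) : ℤ) = (2 * ((n + j * d + h : ℕ) : ℤ) + 1) * (q : ℤ) := by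
    push_cast
    ring
  rw [e] at g1 g2
  rw [sub_neg_eq_add] at g1
  exact ⟨g1, g2⟩

end Pool.Agent.Results.MP_4b1228_nt.LangP2Clusters
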