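import Pool.Agent.T2h76R.Gm5
import Pool.Agent.T2h76R.Hw4

set_option autoImplicit false

/-!
# Lang's family with at most two prime factors in short intervals
-/

namespace Pool.Agent.Results.MP_4b1228_nt.LangP2ShortIntervals

open Finset

/-- the even modulus `2 q` and the odd class -/
theorem aux (q : ℕ) (u : ℤ) (hq : Odd q) :
    ∃ u' : ℤ, u' % 2 = 1 ∧ (q : ℤ) ∣ u' - u := by
  obtain ⟨k, hk⟩ := hq
  have hkz : (q : ℤ) = 2 * k + 1 := by exact_mod_cast hk
  rcases Int.emod_two_eq_zero_or_one u with h | h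
  · refine ⟨u + q, ?_, ⟨1, by ring⟩⟩
    omega
  · exact ⟨u, h, ⟨0, by ring⟩⟩

open Classical in
theorem main : ∃ c : ℝ, 0 < c ∧ ∃ N₁ : ℕ, ∀ N H : ℕ, N₁ ≤ N →
    (N : ℝ) ^ (999 / 1000 : ℝ) ≤ H → H ≤ N →
    ∀ (q : ℕ) (u : ℤ), Odd q → (q : ℝ) ≤ (N : ℝ) ^ (1 / 60000 : ℝ) → IsCoprime (u ^ 2 + 4) (q : ℤ) →
    c * (H / (q * Real.log N)) ≤
      (((Ioc N (N + H)).filter (fun m : ℕ => Odd m ∧ (m : ℤ) ≡ u [ZMOD q] ∧
        (m ^ 2 + 4).primeFactorsList.length ≤ 2 ∧
        ∀ p : ℕ, p.Prime → p ∣ m ^ 2 + 4 → (N : ℝ) ^ (6 / 25 : ℝ) ≤ p)).card : ℝ) := by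
  obtain ⟨c, N1, hc, h⟩ := Pool.Agent.T2h76Q.E.count Pool.Agent.T2h76R.hasWeyl4
  have ev : ∀ᶠ N : ℕ in Filter.atTop, (2 : ℝ) ≤ (N : ℝ) ^ (1 / 300000 : ℝ) :=
    ((tendsto_rpow_atTop (by norm_num)).comp tendsto_natCast_atTop_atTop).eventually_ge_atTop _
  obtain ⟨N2, hN2⟩ := Filter.eventually_atTop.1 ev
  refine ⟨c / 2, by positivity, max (max N1 2) N2, ?_⟩
  intro N H hN hH hHN q u hqo hqN hu
  have hq1 : 1 ≤ q := hqo.pos
  have hNN1 : N1 ≤ N := ((le_max_left _ _).trans (le_max_left _ _)).trans hN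
  have hN2' : 2 ≤ N := ((le_max_right _ _).trans (le_max_left _ _)).trans hN
  have hN2r := hN2 N ((le_max_right _ _).trans hN)
  have hNr : (2 : ℝ) ≤ N := by exact_mod_cast hN2'
  have hNp : (0 : ℝ) < N := by linarith
  obtain ⟨u', hu1, hu2⟩ := aux q u hqo
  have h1 := h N H hNN1 hHN hH (2 * q) u' (by omega) (dvd_mul_right 2 q) (by
    push_cast
    calc (2 : ℝ) * q ≤ (N : ℝ) ^ (1 / 300000 : ℝ) * (N : ℝ) ^ (1 / 60000 : ℝ) := by gcongr
      _ = (N : ℝ) ^ (1 / 50000 : ℝ) := by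
        rw [← Real.rpow_add hNp]
        norm_num) (by
    intro p hp hpq hpu
    rcases (Nat.Prime.dvd_mul hp).1 hpq with h2 | h2
    · have h3 : p = 2 := (Nat.prime_dvd_prime_iff_eq hp Nat.prime_two).1 h2
      subst h3
      have h4 : (2 : ℤ) ∣ u' ^ 2 - -4 := by exact_mod_cast hpu
      have h5 : (2 : ℤ) ∣ u' ^ 2 := by
        obtain ⟨t, ht⟩ := h4
        exact ⟨t - 2, by linarith⟩
      have h6 := Int.prime_two.dvd_of_dvd_pow h5
      omega
    · have h3 : (p : ℤ) ∣ (q : ℤ) := by exact_mod_cast h2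
      have h4 : (p : ℤ) ∣ u ^ 2 + 4 := by
        have e : u ^ 2 + 4 = (u' ^ 2 - -4) - (u' - u) * (u' + u) := by ring
        rw [e]
        exact dvd_sub hpu ((h3.trans hu2).mul_right _)
      have h5 : (p : ℤ) ∣ 1 := by
        obtain ⟨a, b, hab⟩ := hu
        rw [← hab]
        exact dvd_add (h4.mul_left _) (h3.mul_left _)
      have h6 : p ∣ 1 := by exact_mod_cast h5
      exact hp.one_lt.ne' (Nat.dvd_one.1 h6))
  have e1 : c / 2 * (H / (q * Real.log N)) = c * (H / (((2 * q : ℕ) : ℝ) * Real.log N)) := by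
    push_cast
    ring
  rw [e1]
  refine h1.trans ?_
  rw [Nat.cast_le]
  apply card_le_card_of_injOn Int.toNat
  · intro n hn
    rw [mem_coe, mem_filter, mem_Ioc] at hn
    obtain ⟨⟨a1, a2⟩, a3, a4, a5⟩ := hn
    obtain ⟨m, rfl⟩ : ∃ m : ℕ, n = m := ⟨n.toNat, by omega⟩
    rw [mem_coe, mem_filter, mem_Ioc, Int.toNat_natCast]
    have e0 : ((m : ℤ) ^ 2 - -4) = ((m ^ 2 + 4 : ℕ) : ℤ) := by
      push_cast
      ring
    have e : (((m : ℤ) ^ 2 - -4).natAbs : ℕ) = m ^ 2 + 4 := by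
      rw [e0, Int.natAbs_natCast]
    rw [e] at a4
    have h2m : (2 : ℤ) ∣ (m : ℤ) - u' := by
      refine dvd_trans ?_ a3
      push_cast
      exact dvd_mul_right _ _
    have hqm : (q : ℤ) ∣ (m : ℤ) - u' := by
      refine dvd_trans ?_ a3
      push_cast
      exact dvd_mul_left _ _
    refine ⟨⟨by omega, by omega⟩, ?_, ?_, a4, ?_⟩
    · rw [Nat.odd_iff]
      omega
    · apply Int.ModEq.symm
      rw [Int.modEq_iff_dvd]
      have e2 : (m : ℤ) - u = (m - u') + (u' - u) := by ring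
      rw [e2]
      exact dvd_add hqm hu2
    · intro p hp hpm
      apply a5 p hp
      rw [e0]
      exact_mod_cast hpm
  · intro n hn n' hn' hnn
    rw [mem_coe, mem_filter, mem_Ioc] at hn hn'
    have h2 : 0 ≤ n := by omega
    have h3 : 0 ≤ n' := by omega
    have : (n.toNat : ℤ) = (n'.toNat : ℤ) := by exact_mod_cast hnn
    rwa [Int.toNat_of_nonneg h2, Int.toNat_of_nonneg h3] at this

/-- `v` is a prime or a product of two primes, equal or not (or `v = 1`), and no prime factor of `v` is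
below `w`. -/
def IsP2 (v : ℕ) (w : ℝ) : Prop :=
  v.primeFactorsList.length ≤ 2 ∧ ∀ p : ℕ, p.Prime → p ∣ v → w ≤ p

open Classical in
/-- **Lang's family with at most two prime factors in all short intervals.** There are `c > 0` and `N₁` such
that for all `N ≥ N₁` and all `H` with `N ^ 0.999 ≤ H ≤ N`:

(1) for every prime `q ≠ 2` with `q ≤ N ^ (1 / 60000)`, at least `c * H / (q * log N)` integers `n ≥ 1` with
`N < (2 n + 1) q ≤ N + H` have the property that `((2 n + 1) q) ^ 2 + 4` has at most two prime factors, all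
of them at least `N ^ (6 / 25)`;

(2) more generally, for every odd `q ≤ N ^ (1 / 60000)` and every integer `u` with `(u ^ 2 + 4, q) = 1`, at
least `c * H / (q * log N)` odd numbers `m ≡ u (mod q)` in `(N, N + H]` have the property that `m ^ 2 + 4`
has at most two prime factors, all of them at least `N ^ (6 / 25)`. -/
theorem result : ∃ c : ℝ, 0 < c ∧ ∃ N₁ : ℕ, ∀ N H : ℕ, N₁ ≤ N →
    (N : ℝ) ^ (999 / 1000 : ℝ) ≤ H → H ≤ N →
    (∀ q : ℕ, q.Prime → q ≠ 2 → (q : ℝ) ≤ (N : ℝ) ^ (1 / 60000 : ℝ) →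
      c * (H / (q * Real.log N)) ≤
        (((Icc 1 (N + H)).filter (fun n : ℕ => N < (2 * n + 1) * q ∧ (2 * n + 1) * q ≤ N + H ∧
          IsP2 (((2 * n + 1) * q) ^ 2 + 4) ((N : ℝ) ^ (6 / 25 : ℝ)))).card : ℝ)) ∧
    ∀ (q : ℕ) (u : ℤ), Odd q → (q : ℝ) ≤ (N : ℝ) ^ (1 / 60000 : ℝ) → IsCoprime (u ^ 2 + 4) (q : ℤ) →
      c * (H / (q * Real.log N)) ≤
        (((Ioc N (N + H)).filter (fun m : ℕ => Odd m ∧ (m : ℤ) ≡ u [ZMOD q] ∧
          IsP2 (m ^ 2 + 4) ((N : ℝ) ^ (6 / 25 : ℝ)))).card : ℝ) := by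
  obtain ⟨c, hc, N1, h⟩ := main
  refine ⟨c, hc, max N1 2, ?_⟩
  intro N H hN hH hHN
  have hN1 : N1 ≤ N := (le_max_left _ _).trans hN
  have hN2 : 2 ≤ N := (le_max_right _ _).trans hN
  have hNr : (1 : ℝ) < N := by exact_mod_cast (by omega : 1 < N)
  refine ⟨?_, ?_⟩
  · intro q hq hq2 hqN
    have hqo : Odd q := hq.odd_of_ne_two hq2
    have h1 := h N H hN1 hH hHN q 0 hqo hqN (by
      have h2 : Nat.Coprime (2 * 2) q := by
        have := (Nat.coprime_primes Nat.prime_two hq).2 (fun h => hq2 h.symm)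
        exact Nat.Coprime.mul_left this this
      have h3 : IsCoprime ((2 * 2 : ℕ) : ℤ) (q : ℤ) := Nat.isCoprime_iff_coprime.2 h2
      simpa using h3)
    refine h1.trans ?_
    rw [Nat.cast_le]
    have hqN' : q < N := by
      have h2 : (q : ℝ) < N := by
        refine hqN.trans_lt ?_
        calc (N : ℝ) ^ (1 / 60000 : ℝ) < (N : ℝ) ^ (1 : ℝ) :=
              Real.rpow_lt_rpow_of_exponent_lt hNr (by norm_num)
          _ = N := Real.rpow_one _
      exact_mod_cast h2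
    have hpos := hq.pos
    -- every such `m` is `(2 n + 1) q`
    have hkey : ∀ m : ℕ, Odd m → (m : ℤ) ≡ 0 [ZMOD q] → N < m → ∃ n : ℕ, 1 ≤ n ∧ m = (2 * n + 1) * q := by
      intro m hm hm0 hNm
      have hd : q ∣ m := by
        have := Int.modEq_zero_iff_dvd.1 hm0
        exact_mod_cast this
      obtain ⟨t, ht⟩ := hd
      have hto : Odd t := by
        rw [ht] at hm
        exact (Nat.odd_mul.1 hm).2
      obtain ⟨n, hn⟩ := hto
      refine ⟨n, ?_, by rw [ht, hn, mul_comm]⟩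
      by_contra h0
      have h0' : n = 0 := by omega
      rw [h0'] at hn
      rw [hn] at ht
      omega
    apply card_le_card_of_injOn (fun m => (m / q - 1) / 2)
    · intro m hm
      rw [mem_coe, mem_filter, mem_Ioc] at hm
      obtain ⟨⟨a1, a2⟩, a3, a4, a5, a6⟩ := hm
      obtain ⟨n, hn1, hn⟩ := hkey m a3 a4 a1
      have e : (m / q - 1) / 2 = n := by
        rw [hn, Nat.mul_div_cancel _ hpos]
        omega
      show (m / q - 1) / 2 ∈ _
      rw [e, mem_coe, mem_filter, mem_Icc]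
      rw [hn] at a1 a2 a5 a6
      have hnm : n ≤ (2 * n + 1) * q := by nlinarith
      exact ⟨⟨hn1, hnm.trans a2⟩, a1, a2, a5, a6⟩
    · intro m hm m' hm' he
      rw [mem_coe, mem_filter, mem_Ioc] at hm hm'
      obtain ⟨n, hn1, hn⟩ := hkey m hm.2.1 hm.2.2.1 hm.1.1
      obtain ⟨n', hn1', hn'⟩ := hkey m' hm'.2.1 hm'.2.2.1 hm'.1.1
      have he' : (m / q - 1) / 2 = (m' / q - 1) / 2 := he
      rw [hn, hn', Nat.mul_div_cancel _ hpos, Nat.mul_div_cancel _ hpos] at he'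
      have : n = n' := by omega
      rw [hn, hn', this]
  · intro q u hqo hqN hu
    refine (h N H hN1 hH hHN q u hqo hqN hu).trans ?_
    rw [Nat.cast_le]
    apply card_le_card
    intro m hm
    rw [mem_filter] at hm ⊢
    exact hm

end Pool.Agent.Results.MP_4b1228_nt.LangP2ShortIntervals
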