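import Pool.Agent.T2h76R.Nar
import Pool.Agent.T2h76R.Hw1
import Pool.Agent.T2h76R.Hw4

set_option autoImplicit false

/-!
# Narrow arithmetic progressions in the two families with at most two prime factors
-/

namespace Pool.Agent.Results.MP_4b1228_nt.P2NarrowProgressions

open Finset

/-- `v` has at most two prime factors, counted with multiplicity, and none of them is below `w`. -/
def IsP2 (v : ℕ) (w : ℝ) : Prop :=
  v.primeFactorsList.length ≤ 2 ∧ ∀ p : ℕ, p.Prime → p ∣ v → w ≤ p

open Classical in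
/-- The set of the `x` in `(N, N + H]` such that `(2 q x) ^ 2 + 1` has at most two prime factors, counted with
multiplicity, all of them at least `N ^ (6 / 25)`. -/
noncomputable def PA (q N H : ℕ) : Finset ℕ :=
  (Ioc N (N + H)).filter (fun x => IsP2 ((2 * q * x) ^ 2 + 1) ((N : ℝ) ^ (6 / 25 : ℝ)))

open Classical in
/-- The set of the `x` in `(N, N + H]` such that `((2 x + 1) q) ^ 2 + 4` has at most two prime factors,
counted with multiplicity, all of them at least `N ^ (6 / 25)`. -/
noncomputable def PB (q N H : ℕ) : Finset ℕ :=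
  (Ioc N (N + H)).filter (fun x => IsP2 (((2 * x + 1) * q) ^ 2 + 4) ((N : ℝ) ^ (6 / 25 : ℝ)))

/-- `n` is a term of an arithmetic progression of `l` terms with difference between `1` and `D` all of
whose terms are in `A`. -/
def InAP (A : Finset ℕ) (l : ℕ) (D : ℝ) (n : ℕ) : Prop :=
  ∃ u d : ℕ, 1 ≤ d ∧ (d : ℝ) ≤ D ∧ (∀ i < l, u + i * d ∈ A) ∧ ∃ i < l, n = u + i * d

open Classical in
/-- `P` has at least `c * H / log N` elements, and for EVERY subset `A` of `P`, all but at most `ε * #P` of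
the elements of `A` are terms of `l`-term arithmetic progressions contained in `A` with difference at most
`(log N) ^ B`. -/
def Rich (c ε : ℝ) (l B N H : ℕ) (P : Finset ℕ) : Prop :=
  c * (H / Real.log N) ≤ (P.card : ℝ) ∧
    ∀ A : Finset ℕ, A ⊆ P → ((A.filter (fun n => ¬ InAP A l (Real.log N ^ B) n)).card : ℝ) ≤ ε * (P.card : ℝ)

/-- **A theorem of Szemerédi type for the families of Ankeny-Chowla-Hasse and of Lang, with at most two prime
factors.** There is `c > 0` such that for every `q ≥ 1` (in particular any prime), every `l ≥ 2` and every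
`ε > 0` there are `B` and `N₁` such that for all `N ≥ N₁` and all `H` with `N ^ 0.999 ≤ H ≤ N`: the set of
the `x ∈ (N, N + H]` such that `(2 q x) ^ 2 + 1` is a product of at most two primes, both at least
`N ^ (6 / 25)`, has at least `c * H / log N` elements, and for every subset `A` of it, all but at most `ε`
times the number of elements of the whole set of the elements of `A` are terms of `l`-term arithmetic
progressions contained in `A` with difference at most `(log N) ^ B`. The same holds for `((2 x + 1) q) ^ 2 + 4`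
if `q` is odd. -/
theorem result : ∃ c : ℝ, 0 < c ∧ ∀ (q l : ℕ) (ε : ℝ), 1 ≤ q → 2 ≤ l → 0 < ε → ∃ B N₁ : ℕ,
    ∀ N H : ℕ, N₁ ≤ N → (N : ℝ) ^ (999 / 1000 : ℝ) ≤ H → H ≤ N →
      Rich c ε l B N H (PA q N H) ∧ (Odd q → Rich c ε l B N H (PB q N H)) := by
  classical
  obtain ⟨c1, hc1, h1⟩ := Pool.Agent.T2h76R.narQ Pool.Agent.T2h76R.hasWeyl1
  obtain ⟨c4, hc4, h4⟩ := Pool.Agent.T2h76R.narQ Pool.Agent.T2h76R.hasWeyl4
  refine ⟨min c1 c4, lt_min hc1 hc4, ?_⟩
  intro q l ε hq hl hε
  have hAP : ∀ (A : Finset ℕ) (D : ℝ) (n : ℕ), InAP A l D n ↔ Pool.Agent.T2h76R.InAPQ A l D n :=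
    fun _ _ _ => Iff.rfl
  obtain ⟨B1, N1, g1⟩ := h1 (2 * q) 0 (by omega) (one_dvd _) (by omega) (by
    intro p hp _ hd
    norm_num at hd
    exact hp.one_lt.ne' (Nat.dvd_one.1 (by exact_mod_cast hd))) l ε hl hε
  have hPA : ∀ N H : ℕ, PA q N H = Pool.Agent.T2h76R.PQ (-1) (2 * q) 0 N H := by
    intro N H
    unfold PA Pool.Agent.T2h76R.PQ
    apply filter_congr
    intro x _
    have e0 : (((2 * q * x + 0 : ℕ) : ℤ) ^ 2 - -1) = (((2 * q * x) ^ 2 + 1 : ℕ) : ℤ) := by
      push_cast
      ring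
    rw [e0, Int.natAbs_natCast]
    unfold IsP2
    refine and_congr_right fun _ => forall_congr' fun p => ?_
    rw [Int.natCast_dvd_natCast]
  have key : ∀ (c B' B : ℕ) (N H : ℕ) (c₀ : ℝ) (P : Finset ℕ), 3 ≤ N → B' ≤ B → min c1 c4 ≤ c₀ →
      c₀ * (H / Real.log N) ≤ (P.card : ℝ) →
      (∀ A : Finset ℕ, A ⊆ P →
        ((A.filter (fun n => ¬ Pool.Agent.T2h76R.InAPQ A l (Real.log N ^ B') n)).card : ℝ) ≤
          ε * (P.card : ℝ)) → Rich (min c1 c4) ε l B N H P := by
    intro _ B' B N H c₀ P hN hB hc hP hA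
    have hNr : (3 : ℝ) ≤ N := by exact_mod_cast hN
    have hl1 : 1 ≤ Real.log N := by
      rw [Real.le_log_iff_exp_le (by linarith)]
      have := Real.exp_one_lt_d9
      linarith
    refine ⟨le_trans (mul_le_mul_of_nonneg_right hc (by positivity)) hP, fun A hAP' => ?_⟩
    refine le_trans ?_ (hA A hAP')
    rw [Nat.cast_le]
    apply card_le_card
    intro n hn
    rw [mem_filter] at hn ⊢
    refine ⟨hn.1, fun h => hn.2 ?_⟩
    obtain ⟨u, d, k1, k2, k3, k4⟩ := h
    exact ⟨u, d, k1, k2.trans (pow_le_pow_right₀ hl1 hB), k3, k4⟩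
  by_cases hodd : Odd q
  · have hq2 : 1 ≤ 2 * q := by omega
    obtain ⟨B4, N4, g4⟩ := h4 (2 * q) q hq2 (dvd_mul_right _ _) (by omega) (by
      intro p hp hpq h
      rcases (Nat.Prime.dvd_mul hp).1 hpq with h2 | h2
      · have h3 : p = 2 := (Nat.prime_dvd_prime_iff_eq hp Nat.prime_two).1 h2
        subst h3
        have h4 : (2 : ℤ) ∣ (q : ℤ) ^ 2 - -4 := by exact_mod_cast h
        have h5 : (2 : ℤ) ∣ (q : ℤ) ^ 2 := by
          obtain ⟨t, ht⟩ := h4
          exact ⟨t - 2, by linarith⟩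
        have h6 := Int.prime_two.dvd_of_dvd_pow h5
        obtain ⟨k, hk⟩ := hodd
        omega
      · have h3 : (p : ℤ) ∣ (q : ℤ) := by exact_mod_cast h2
        have h4 : (p : ℤ) ∣ 4 := by
          have e : (4 : ℤ) = ((q : ℤ) ^ 2 - -4) - q * q := by ring
          rw [e]
          exact dvd_sub h (h3.mul_right _)
        have h5 : p ∣ 2 ^ 2 := by exact_mod_cast h4
        have h6 := hp.dvd_of_dvd_pow h5
        have h7 : p = 2 := (Nat.prime_dvd_prime_iff_eq hp Nat.prime_two).1 h6
        subst h7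
        obtain ⟨k, hk⟩ := hodd
        omega) l ε hl hε
    have hPB : ∀ N H : ℕ, PB q N H = Pool.Agent.T2h76R.PQ (-4) (2 * q) q N H := by
      intro N H
      unfold PB Pool.Agent.T2h76R.PQ
      apply filter_congr
      intro x _
      have e0 : (((2 * q * x + q : ℕ) : ℤ) ^ 2 - -4) = ((((2 * x + 1) * q) ^ 2 + 4 : ℕ) : ℤ) := by
        push_cast
        ring
      rw [e0, Int.natAbs_natCast]
      unfold IsP2
      refine and_congr_right fun _ => forall_congr' fun p => ?_
      rw [Int.natCast_dvd_natCast]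
    refine ⟨max B1 B4, max (max N1 N4) 3, ?_⟩
    intro N H hN hH hHN
    have a1 : N1 ≤ N := ((le_max_left _ _).trans (le_max_left _ _)).trans hN
    have a4 : N4 ≤ N := ((le_max_right _ _).trans (le_max_left _ _)).trans hN
    have a3 : 3 ≤ N := (le_max_right _ _).trans hN
    refine ⟨?_, fun _ => ?_⟩
    · rw [hPA]
      obtain ⟨k1, k2⟩ := g1 N H a1 hH hHN
      exact key 0 B1 _ N H c1 _ a3 (le_max_left _ _) (min_le_left _ _) k1 (fun A hA => by
        refine le_trans (le_of_eq ?_) (k2 A hA)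
        congr)
    · rw [hPB]
      obtain ⟨k1, k2⟩ := g4 N H a4 hH hHN
      exact key 0 B4 _ N H c4 _ a3 (le_max_right _ _) (min_le_right _ _) k1 (fun A hA => by
        refine le_trans (le_of_eq ?_) (k2 A hA)
        congr)
  · refine ⟨B1, max N1 3, ?_⟩
    intro N H hN hH hHN
    have a1 : N1 ≤ N := (le_max_left _ _).trans hN
    have a3 : 3 ≤ N := (le_max_right _ _).trans hN
    refine ⟨?_, fun h => absurd h hodd⟩
    rw [hPA]
    obtain ⟨k1, k2⟩ := g1 N H a1 hH hHN
    exact key 0 B1 _ N H c1 _ a3 le_rfl (min_le_left _ _) k1 (fun A hA => by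
      refine le_trans (le_of_eq ?_) (k2 A hA)
      congr)

end Pool.Agent.Results.MP_4b1228_nt.P2NarrowProgressions
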